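import Mathlib
import Pool.Agent.Y728.TR.Line
import Pool.Agent.Y728.QS.QStd

/-!
# The truncated inequality of Vojta on the product of two lines: fibres and graphs of rational
functions of degree at most two, points of all heights

Let `K` be a number field and `D` a divisor on `ℙ¹ × ℙ¹` whose components are fibres of the two
projections and graphs of rational functions of degree at most two (in particular smooth curves of
bidegree `(1, 1)` like the diagonal), with normal crossings and rational crossing points.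

The points `(x, y)` of all heights are ordered by the truncated counting functions of `x` with
respect to any `s ≥ 3` points `c_j` of the line and of `y` with respect to any `s' ≥ 3` points
`c'_j`: `Points T c c' B` is the set of the `(x, y)` with `N^(1)(x) ≤ s log B` and
`N^(1)(y) ≤ s' log B`. There are `B ^ (4 + o(1))` of them, as many as points with both heights at
most `log B`. For every `κ > 0` all but a power-saving proportion of them satisfy
`(a - κ) h(x) + (b - κ) h(y) ≤ N^(1)_D(x, y) + C`, `(a, b)` being the bidegree of `D`.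
-/

set_option autoImplicit false

namespace Pool.Agent.Results.MP_542436_nt.AllHeightsGraphs

open NumberField IsDedekindDomain Polynomial

/-- The degree of the rational function `P / Q`. -/
def deg {K : Type} [Field K] (P Q : K[X]) : ℕ := max P.natDegree Q.natDegree

/-- The value at `([x : 1], [y : 1])` of the equation of the divisor `D`, the union of the
fibres `x = γ i`, `i ∈ A`, of the first projection and of the graphs `y = P k (x) / Q k (x)`. -/
def equation {K : Type} [Field K] {g t : ℕ} (γ : Fin g → K × K) (A : Finset (Fin g))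
    (P Q : Fin t → K[X]) (x y : K) : K :=
  (∏ i ∈ A, (x * (γ i).2 - 1 * (γ i).1)) *
    ∏ k, (y * (Q k).eval x - 1 * (P k).eval x)

/-- The local height `-log (|F(s, t)| / (|s| ^ a * |t| ^ b))` at the prime `v` of the point
`([x : 1], [y : 1])`, for a divisor of bidegree `(a, b)` whose equation has the value `f`. -/
noncomputable def localHeight {K : Type} [Field K] [NumberField K]
    (v : HeightOneSpectrum (𝓞 K)) (a b : ℕ) (f x y : K) : ℝ :=
  -Real.log (FinitePlace.mk v f /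
    (max (FinitePlace.mk v x) (FinitePlace.mk v 1) ^ a *
      max (FinitePlace.mk v y) (FinitePlace.mk v 1) ^ b))

/-- The truncated counting function of `D`: the sum over the primes `v` outside `T` of
`min (λ_{D, v}) (log N v)`. -/
noncomputable def counting {K : Type} [Field K] [NumberField K]
    (T : Set (HeightOneSpectrum (𝓞 K))) {g t : ℕ} (γ : Fin g → K × K)
    (A : Finset (Fin g)) (P Q : Fin t → K[X]) (x y : K) : ℝ :=
  ∑ᶠ (v : HeightOneSpectrum (𝓞 K)) (_ : v ∉ T),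
    min (localHeight v (A.card + ∑ k, deg (P k) (Q k)) t (equation γ A P Q x y) x y)
      (Real.log (Ideal.absNorm v.asIdeal : ℝ))

open Classical in
/-- The truncated counting function of the sum of the points `c j` of the line at `[x : 1]`: the
sum of `log N v` over the primes `v` outside `T` at which the point and some `c j` have the same
reduction. -/
noncomputable def lineCounting {K : Type} [Field K] [NumberField K]
    (T : Set (HeightOneSpectrum (𝓞 K))) {s : ℕ} (c : Fin s → K × K) (x : K) : ℝ :=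
  ∑ᶠ v : HeightOneSpectrum (𝓞 K), if v ∉ T ∧ ∃ j, v.valuation K ((c j).1 - (c j).2 * x) <
      max (v.valuation K (c j).1) (v.valuation K (c j).2) * max (v.valuation K x) 1 then
    Real.log (Ideal.absNorm v.asIdeal) else 0

/-- The elements `x` of `K`, of whatever height, different from the `c j`, whose truncated counting
function is at most `s log B`. -/
def LinePoints {K : Type} [Field K] [NumberField K] (T : Set (HeightOneSpectrum (𝓞 K))) {s : ℕ}
    (c : Fin s → K × K) (B : ℝ) : Set K :=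
  {x | (∀ j, (c j).1 - (c j).2 * x ≠ 0) ∧ lineCounting T c x ≤ s * Real.log B}

/-- The pairs of such elements. -/
def Points {K : Type} [Field K] [NumberField K] (T : Set (HeightOneSpectrum (𝓞 K))) {s s' : ℕ}
    (c : Fin s → K × K) (c' : Fin s' → K × K) (B : ℝ) : Set (K × K) :=
  {z | z.1 ∈ LinePoints T c B ∧ z.2 ∈ LinePoints T c' B}

/-- The pairs off `D` among them with
`N^(1)_D(x, y) < (a - κ) h(x) + (b - κ) h(y) + C₀`, where `(a, b)` is the bidegree of `D` and `h` is
the logarithmic height relative to `K`. -/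
def Exceptions {K : Type} [Field K] [NumberField K] (T : Set (HeightOneSpectrum (𝓞 K)))
    {s s' g t : ℕ} (c : Fin s → K × K) (c' : Fin s' → K × K) (γ : Fin g → K × K)
    (A : Finset (Fin g)) (P Q : Fin t → K[X]) (κ C₀ B : ℝ) : Set (K × K) :=
  {z | z ∈ Points T c c' B ∧ equation γ A P Q z.1 z.2 ≠ 0 ∧
    counting T γ A P Q z.1 z.2 <
      (((A.card + ∑ k, deg (P k) (Q k) : ℕ) : ℝ) - κ) * Height.logHeight₁ z.1 +
        ((t : ℝ) - κ) * Height.logHeight₁ z.2 + C₀}

theorem linePoints_eq {K : Type} [Field K] [NumberField K] (T : Set (HeightOneSpectrum (𝓞 K)))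
    {s : ℕ} (c : Fin s → K × K) (B : ℝ) : LinePoints T c B =
      Pool.Agent.Y728.AK.GVal K T (fun j => Pool.Agent.Y728.TR.vc (c j)) (B ^ s) := by
  classical
  have hc : ∀ x : K, (∀ j, (c j).1 - (c j).2 * x ≠ 0) → lineCounting T c x =
      Pool.Agent.TH876.KR.counting T (fun j => Pool.Agent.Y728.TR.vc (c j)) ![x, 1] := by
    intro x hx
    rw [← Pool.Agent.Y728.TR.counting_vc T c hx]
    unfold lineCounting
    refine finsum_congr fun v => ?_
    by_cases h : v ∉ T ∧ ∃ j, v.valuation K ((c j).1 - (c j).2 * x) <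
        max (v.valuation K (c j).1) (v.valuation K (c j).2) * max (v.valuation K x) 1
    · exact (if_pos h).trans (if_pos h).symm
    · exact (if_neg h).trans (if_neg h).symm
  ext x
  constructor
  · rintro ⟨h1, h2⟩
    refine ⟨fun j => ?_, ?_⟩
    · rw [Pool.Agent.Y728.TR.form_vc]
      exact h1 j
    · rw [← hc x h1, Real.log_pow]
      exact h2
  · rintro ⟨h1, h2⟩
    have h3 : ∀ j, (c j).1 - (c j).2 * x ≠ 0 := fun j => by
      have := h1 j
      rwa [Pool.Agent.Y728.TR.form_vc] at this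
    refine ⟨h3, ?_⟩
    rw [← hc x h3, Real.log_pow] at h2
    exact h2

theorem points_eq {K : Type} [Field K] [NumberField K] (T : Set (HeightOneSpectrum (𝓞 K)))
    {s s' : ℕ} (c : Fin s → K × K) (c' : Fin s' → K × K) (B : ℝ) : Points T c c' B =
      LinePoints T c B ×ˢ LinePoints T c' B := rfl

/-- the pairs off `D` of bounded height violating the inequality -/
theorem bounded {K : Type} [Field K] [NumberField K] (T : Set (HeightOneSpectrum (𝓞 K)))
    (hT : T.Finite) (g t : ℕ) (hg : 1 ≤ g) (ht : 1 ≤ t) (γ : Fin g → K × K)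
    (hγ0 : ∀ i, γ i ≠ 0) (hγ : ∀ i j, i ≠ j → (γ i).1 * (γ j).2 - (γ i).2 * (γ j).1 ≠ 0)
    (A : Finset (Fin g)) (P Q : Fin t → K[X]) (hPQ : ∀ k, IsCoprime (P k) (Q k))
    (hd2 : ∀ k, deg (P k) (Q k) ≤ 2) (S : Fin t → Fin t → Finset (Fin g)) (u : Fin t → Fin t → K)
    (hS : ∀ k l, k ≠ l → u k l ≠ 0 ∧ (S k l).card = deg (P k) (Q k) + deg (P l) (Q l) ∧
      ∀ x : K, (P k).eval x * (Q l).eval x - (Q k).eval x * (P l).eval x =
        u k l * ∏ i ∈ S k l, (x * (γ i).2 - 1 * (γ i).1))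
    (hAS : ∀ k l, k ≠ l → Disjoint A (S k l))
    (hSS : ∀ k l m, k ≠ l → k ≠ m → l ≠ m → Disjoint (S k m) (S l m))
    (κ C₀ : ℝ) (hκ : 0 < κ) :
    ∃ η : ℝ, 0 < η ∧ ∃ C : ℝ, 0 ≤ C ∧ ∀ Y : ℝ, 0 ≤ Y → ∀ F : Finset (K × K),
      (∀ z ∈ F, z ∈ {z : K × K | equation γ A P Q z.1 z.2 ≠ 0 ∧
        counting T γ A P Q z.1 z.2 <
          (((A.card + ∑ k, deg (P k) (Q k) : ℕ) : ℝ) - κ) * Height.logHeight₁ z.1 +
            ((t : ℝ) - κ) * Height.logHeight₁ z.2 + C₀} ∧
        Height.logHeight₁ z.1 ≤ Y ∧ Height.logHeight₁ z.2 ≤ Y) →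
      (F.card : ℝ) ≤ C * Real.exp ((4 - η) * Y) := by
  obtain ⟨κ', hκ'⟩ : ∃ κ' : ℝ, κ' = min κ (1 / 4) := ⟨_, rfl⟩
  have h0 : 0 < κ' := by rw [hκ']; exact lt_min hκ (by norm_num)
  have h1 : κ' ≤ κ := by rw [hκ']; exact min_le_left _ _
  have h2 : κ' ≤ 1 / 4 := by rw [hκ']; exact min_le_right _ _
  obtain ⟨C, hC, hmain⟩ := Pool.Agent.Y728.QS.qstd_count hg ht T hT γ hγ0 hγ A P Q hPQ hd2 S u hS
    hAS hSS κ' h0.le (by linarith) C₀ κ' h0
  refine ⟨κ', h0, C, hC, fun Y hY F hF => ?_⟩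
  have h3 := hmain Y hY F (fun z hz => by
    obtain ⟨⟨h4, h5⟩, h6, h7⟩ := hF z hz
    refine ⟨h4, ?_, ?_, ?_⟩
    · rw [Pool.Agent.Y728.TR.hr_aff, Pool.Agent.Y728.TR.hr_aff]
      refine lt_of_lt_of_le h5 ?_
      have h8 : 0 ≤ Height.logHeight₁ z.1 := Height.zero_le_logHeight₁ _
      have h9 : 0 ≤ Height.logHeight₁ z.2 := Height.zero_le_logHeight₁ _
      have h10 : (((A.card + ∑ k, deg (P k) (Q k) : ℕ) : ℝ) - κ) * Height.logHeight₁ z.1 ≤
          (((A.card + ∑ k, deg (P k) (Q k) : ℕ) : ℝ) - κ') * Height.logHeight₁ z.1 :=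
        mul_le_mul_of_nonneg_right (by linarith) h8
      have h11 : ((t : ℝ) - κ) * Height.logHeight₁ z.2 ≤
          ((t : ℝ) - κ') * Height.logHeight₁ z.2 :=
        mul_le_mul_of_nonneg_right (by linarith) h9
      exact add_le_add (add_le_add h10 h11) le_rfl
    · rw [Pool.Agent.Y728.TR.hr_aff]
      exact h6
    · rw [Pool.Agent.Y728.TR.hr_aff]
      exact h7)
  refine h3.trans (mul_le_mul_of_nonneg_left (Real.exp_le_exp.2 ?_) hC)
  refine mul_le_mul_of_nonneg_right ?_ hY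
  have h4 : max (2 * (2 - κ')) (7 / 2) ≤ 4 - 2 * κ' := max_le (by linarith) (by linarith)
  linarith

/-- **The truncated inequality of Vojta for points of all heights of the product of two lines.**
Let `K` be a number field and `D` the divisor on `ℙ¹ × ℙ¹` which is the union of the fibres
`x = γ i` (`i ∈ A`) and of the graphs of `t ≥ 1` rational functions `P k / Q k` over `K` of degree
at most two (constants allowed). Suppose that `D` has normal crossings and that all crossing points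
are rational: the two graphs `k ≠ l` meet over the `deg k + deg l` different points `γ i`,
`i ∈ S k l`, and there are no triple points. Let `T` be a finite set of primes and `c_j`, `c'_j`
any `s ≥ 3` and `s' ≥ 3` different points of the line over `K`.

(1) The number of the pairs `(x, y)` of elements of `K`, of whatever height, whose truncated
counting functions with respect to the `c_j` and to the `c'_j` are at most `s log B` and
`s' log B` is `B ^ (4 + o(1))`.

(2) For every `κ > 0` and every real `C₀` the number of those off `D` with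
`N^(1)_D(x, y) < (a - κ) h(x) + (b - κ) h(y) + C₀`, where `(a, b)` is the bidegree of `D`, is at most
`C B ^ (4 - ν)`, that is, a proportion of at most `B ^ (-ν)` for large `B`. -/
theorem result (K : Type) [Field K] [NumberField K] (T : Set (HeightOneSpectrum (𝓞 K)))
    (hT : T.Finite) (s s' : ℕ) (hs : 3 ≤ s) (hs' : 3 ≤ s') (c : Fin s → K × K)
    (c' : Fin s' → K × K) (hc : ∀ i j, i ≠ j → (c i).1 * (c j).2 - (c i).2 * (c j).1 ≠ 0)
    (hc' : ∀ i j, i ≠ j → (c' i).1 * (c' j).2 - (c' i).2 * (c' j).1 ≠ 0) (g t : ℕ) (hg : 1 ≤ g)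
    (ht : 1 ≤ t) (γ : Fin g → K × K) (hγ0 : ∀ i, γ i ≠ 0)
    (hγ : ∀ i j, i ≠ j → (γ i).1 * (γ j).2 - (γ i).2 * (γ j).1 ≠ 0)
    (A : Finset (Fin g)) (P Q : Fin t → K[X]) (hPQ : ∀ k, IsCoprime (P k) (Q k))
    (hd2 : ∀ k, deg (P k) (Q k) ≤ 2) (S : Fin t → Fin t → Finset (Fin g)) (u : Fin t → Fin t → K)
    (hS : ∀ k l, k ≠ l → u k l ≠ 0 ∧ (S k l).card = deg (P k) (Q k) + deg (P l) (Q l) ∧
      ∀ x : K, (P k).eval x * (Q l).eval x - (Q k).eval x * (P l).eval x =
        u k l * ∏ i ∈ S k l, (x * (γ i).2 - 1 * (γ i).1))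
    (hAS : ∀ k l, k ≠ l → Disjoint A (S k l))
    (hSS : ∀ k l m, k ≠ l → k ≠ m → l ≠ m → Disjoint (S k m) (S l m)) :
    (∀ δ : ℝ, 0 < δ →
      (∃ C : ℝ, ∀ B : ℝ, 1 ≤ B → (Points T c c' B).Finite ∧
        ((Points T c c' B).ncard : ℝ) ≤ C * B ^ (4 + δ)) ∧
      ∃ B₀ : ℝ, ∀ B : ℝ, B₀ ≤ B → B ^ (4 - δ) ≤ ((Points T c c' B).ncard : ℝ)) ∧
    ∀ κ C₀ : ℝ, 0 < κ →
      (∃ ν C : ℝ, 0 < ν ∧ 0 < C ∧ ∀ B : ℝ, 1 ≤ B →
        ((Exceptions T c c' γ A P Q κ C₀ B).ncard : ℝ) ≤ C * B ^ (4 - ν)) ∧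
      ∃ ν B₀ : ℝ, 0 < ν ∧ ∀ B : ℝ, B₀ ≤ B →
        ((Exceptions T c c' γ A P Q κ C₀ B).ncard : ℝ) ≤
          B ^ (-ν) * ((Points T c c' B).ncard : ℝ) := by
  classical
  have ha : ∀ i j, i ≠ j → Pool.Agent.TH876.KR.form
      ((fun j => Pool.Agent.Y728.TR.vc (c j)) i) ((fun j => Pool.Agent.Y728.TR.vc (c j)) j) ≠ 0 :=
    fun i j hij => Pool.Agent.Y728.TR.form_vc_ne (hc i j hij)
  have ha' : ∀ i j, i ≠ j → Pool.Agent.TH876.KR.form
      ((fun j => Pool.Agent.Y728.TR.vc (c' j)) i) ((fun j => Pool.Agent.Y728.TR.vc (c' j)) j) ≠ 0 :=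
    fun i j hij => Pool.Agent.Y728.TR.form_vc_ne (hc' i j hij)
  have hlow : ∀ δ : ℝ, 0 < δ → ∃ B₀ : ℝ, 1 ≤ B₀ ∧ ∀ B : ℝ, B₀ ≤ B →
      B ^ (4 - δ) ≤ ((Points T c c' B).ncard : ℝ) := by
    intro δ hδ
    obtain ⟨B₁, hB₁, h1⟩ := Pool.Agent.Y728.TR.val_low K hs T hT _ ha (δ / 2) (by positivity)
    obtain ⟨B₂, hB₂, h2⟩ := Pool.Agent.Y728.TR.val_low K hs' T hT _ ha' (δ / 2) (by positivity)
    refine ⟨max B₁ B₂, hB₁.trans (le_max_left _ _), fun B hB => ?_⟩
    have hB1 : 1 ≤ B := hB₁.trans ((le_max_left _ _).trans hB)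
    have hB0 : 0 < B := by linarith
    rw [points_eq, linePoints_eq, linePoints_eq, Set.ncard_prod, Nat.cast_mul]
    have h3 := h1 B ((le_max_left _ _).trans hB)
    have h4 := h2 B ((le_max_right _ _).trans hB)
    have e4 : (4 : ℝ) - δ = (2 - δ / 2) + (2 - δ / 2) := by ring
    rw [e4, Real.rpow_add hB0]
    exact mul_le_mul h3 h4 (Real.rpow_pos_of_pos hB0 _).le (Nat.cast_nonneg _)
  refine ⟨fun δ hδ => ⟨?_, ?_⟩, fun κ C₀ hκ => ?_⟩
  · obtain ⟨C₁, hC₁, h1⟩ := Pool.Agent.Y728.TR.val_all K hs T hT _ ha (δ / 2) (by positivity)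
    obtain ⟨C₂, hC₂, h2⟩ := Pool.Agent.Y728.TR.val_all K hs' T hT _ ha' (δ / 2) (by positivity)
    refine ⟨C₁ * C₂, fun B hB => ?_⟩
    have hB0 : 0 < B := by linarith
    obtain ⟨f1, c1⟩ := h1 B hB
    obtain ⟨f2, c2⟩ := h2 B hB
    rw [points_eq, linePoints_eq, linePoints_eq]
    refine ⟨f1.prod f2, ?_⟩
    rw [Set.ncard_prod, Nat.cast_mul]
    have e4 : (4 : ℝ) + δ = (2 + δ / 2) + (2 + δ / 2) := by ring
    have e5 : C₁ * C₂ * B ^ (4 + δ) = (C₁ * B ^ (2 + δ / 2)) * (C₂ * B ^ (2 + δ / 2)) := by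
      rw [e4, Real.rpow_add hB0]
      generalize B ^ (2 + δ / 2) = w
      ring
    rw [e5]
    exact mul_le_mul c1 c2 (Nat.cast_nonneg _) (by positivity)
  · obtain ⟨B₀, -, h⟩ := hlow δ hδ
    exact ⟨B₀, h⟩
  · obtain ⟨η, hη, hbd⟩ := bounded T hT g t hg ht γ hγ0 hγ A P Q hPQ hd2 S u hS hAS hSS κ C₀ hκ
    have hupp := Pool.Agent.Y728.TR.transfer2 K hs hs' T T hT hT _ _ ha ha' _ η hη hbd
    have hupp' : ∃ ν C : ℝ, 0 < ν ∧ 0 < C ∧ ∀ B : ℝ, 1 ≤ B →
        ((Exceptions T c c' γ A P Q κ C₀ B).ncard : ℝ) ≤ C * B ^ (4 - ν) := by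
      obtain ⟨ν, C, hν, hC, h⟩ := hupp
      refine ⟨ν, C, hν, hC, fun B hB => ?_⟩
      refine le_trans (le_of_eq ?_) (h B hB)
      congr 2
      ext z
      constructor
      · rintro ⟨⟨h1, h2⟩, h3, h4⟩
        rw [linePoints_eq] at h1 h2
        exact ⟨⟨h3, h4⟩, h1, h2⟩
      · rintro ⟨⟨h3, h4⟩, h1, h2⟩
        rw [← linePoints_eq] at h1 h2
        exact ⟨⟨h1, h2⟩, h3, h4⟩
    refine ⟨hupp', ?_⟩
    obtain ⟨ν, C, hν, hC, h1⟩ := hupp'
    obtain ⟨X0, hX0, h2⟩ := hlow (ν / 2) (by positivity)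
    exact ⟨ν / 4, _, by positivity, Pool.Agent.Y728.AK.ratio_of hν hC hX0 h1 h2⟩

end Pool.Agent.Results.MP_542436_nt.AllHeightsGraphs
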