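import Pool.Agent.Y557.U.GenMain

/-!
# The truncated Vojta conjecture on `ℙ¹ × ℙ¹`: all rational curves of small height at once

`K` is a number field. All rational curves `C : x ↦ (A(x), B(x))` of `ℙ¹ × ℙ¹` over `K` with
components of degrees `a` and `b`, all divisors `D` of bidegree `(q, r)` and all finite sets `S` of
primes are considered at once, if their heights are at most `η log X` and if `C` meets `D` in
`p ≥ 3` points (of the projective line) which are `K`-rational. One set of exceptional points,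
smaller by a power of `X` than the set of the points of each single curve with
`N^(1)_S(D, P) ≤ log X`, serves all of them: at all other such points `P = (α, β)` of all the
curves, of whatever height, `N^(1)_S(D, P) ≥ κ₁ h_K(α) + κ₂ h_K(β) - C₀` (`κ₁ a + κ₂ b < p`).
-/

set_option autoImplicit false

namespace Pool.Agent.Results.MP_542436_nt.AllRationalCurvesAtOnce

open NumberField IsDedekindDomain Polynomial

/-- the restriction `F (A; B)` of a form `F` in two pairs of variables to the curve
`x ↦ (A (x), B (x))` -/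
noncomputable def restriction {K : Type} [Field K] (A B : Fin 2 → K[X])
    (F : MvPolynomial (Fin 2 ⊕ Fin 2) K) : K[X] := MvPolynomial.aeval (Sum.elim A B) F

/-- `x ↦ (A 0 (x) : A 1 (x))` is a map from the projective line to itself of degree `a`, given by
coprime polynomials -/
structure IsMap {K : Type} [Field K] (a : ℕ) (A : Fin 2 → K[X]) : Prop where
  degree_le : ∀ i, (A i).natDegree ≤ a
  degree_eq : ∃ i, (A i).natDegree = a
  coprime : ∃ u : Fin 2 → K[X], ∑ i, u i * A i = 1

open Classical in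
/-- the number of the different points of the projective line which the curve maps to the divisor
`F = 0` of bidegree `(q, r)` (infinity is one of them if the degree of `F (A; B)` is smaller than
`a q + b r`) -/
noncomputable def zeros {K : Type} [Field K] (A B : Fin 2 → K[X])
    (F : MvPolynomial (Fin 2 ⊕ Fin 2) K) (N : ℕ) : ℕ :=
  (restriction A B F).roots.toFinset.card + if (restriction A B F).natDegree < N then 1 else 0

variable {K : Type} [Field K] [NumberField K]

/-- the local height at the prime `v` of the divisor `F = 0` of bidegree `(q, r)` at the point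
`(s, t)`, normalised by the maximum of the absolute values of the coefficients of `F` -/
noncomputable def localHeight (F : MvPolynomial (Fin 2 ⊕ Fin 2) K) (q r : ℕ)
    (v : HeightOneSpectrum (𝓞 K)) (s t : Fin 2 → K) : ℝ :=
  Real.log ((⨆ d : F.support, FinitePlace.mk v (F.coeff d)) *
    ((⨆ i, FinitePlace.mk v (s i)) ^ q * (⨆ i, FinitePlace.mk v (t i)) ^ r) /
    FinitePlace.mk v (MvPolynomial.eval (Sum.elim s t) F))

/-- the truncated counting function `N^(1)_S(D, P)`: the sum of `log N(v)` over the primes `v ∉ S`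
where the local height of `D` is positive (it is then at least `log N(v)`) -/
noncomputable def counting (S : Set (HeightOneSpectrum (𝓞 K)))
    (F : MvPolynomial (Fin 2 ⊕ Fin 2) K) (q r : ℕ) (s t : Fin 2 → K) : ℝ :=
  ∑ᶠ v ∈ {v : HeightOneSpectrum (𝓞 K) | v ∉ S ∧ 0 < localHeight F q r v s t},
    Real.log (Ideal.absNorm v.asIdeal : ℝ)

/-- the data: a finite set `S` of primes, a curve `C : x ↦ (A (x), B (x))` with components of
degrees `a` and `b`, and a divisor `D : F = 0` of bidegree `(q, r)` which does not contain `C`; `p`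
is the number of the points of the projective line over `D`, all of which are `K`-rational; the
product of the norms of the primes in `S` is at most `exp H`, and the vectors of the coefficients of
the `A i`, of the `B i` and of `F` have heights (relative to `K`) at most `H` -/
structure Admissible (a b q r p : ℕ) (H : ℝ) (S : Finset (HeightOneSpectrum (𝓞 K)))
    (A B : Fin 2 → K[X]) (F : MvPolynomial (Fin 2 ⊕ Fin 2) K) : Prop where
  first : IsMap a A
  second : IsMap b B
  bihomogeneous : F.IsWeightedHomogeneous (Sum.elim (fun _ : Fin 2 => ((1, 0) : ℕ × ℕ))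
      (fun _ : Fin 2 => ((0, 1) : ℕ × ℕ))) (q, r)
  ne_zero : restriction A B F ≠ 0
  splits : (restriction A B F).Splits
  points : zeros A B F (a * q + b * r) = p
  primes : ∑ v ∈ S, Real.log (Ideal.absNorm v.asIdeal : ℝ) ≤ H
  height_first : Height.logHeight (fun i : Fin 2 × Fin (a + 1) => (A i.1).coeff i.2) ≤ H
  height_second : Height.logHeight (fun i : Fin 2 × Fin (b + 1) => (B i.1).coeff i.2) ≤ H
  height_form : Height.logHeight (fun d : F.support => F.coeff d) ≤ H

/-- the coordinates of the image of `x` under a map of degree `a`; `none` is infinity -/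
def coordinates (a : ℕ) (A : Fin 2 → K[X]) : Option K → Fin 2 → K
  | some x => fun i => (A i).eval x
  | none => fun i => (A i).coeff a

/-- the points `P` of the curve with a parameter in the projective line over `K`, off `D`, with
`N^(1)_S(D, P) ≤ log X`, of whatever height -/
def Points (a b q r : ℕ) (S : Set (HeightOneSpectrum (𝓞 K))) (A B : Fin 2 → K[X])
    (F : MvPolynomial (Fin 2 ⊕ Fin 2) K) (X : ℝ) :
    Set (Projectivization K (Fin 2 → K) × Projectivization K (Fin 2 → K)) :=
  {P | ∃ (x : Option K) (hs : coordinates a A x ≠ 0) (ht : coordinates b B x ≠ 0),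
    P = (Projectivization.mk K (coordinates a A x) hs,
      Projectivization.mk K (coordinates b B x) ht) ∧
    MvPolynomial.eval (Sum.elim (coordinates a A x) (coordinates b B x)) F ≠ 0 ∧
    counting S F q r (coordinates a A x) (coordinates b B x) ≤ Real.log X}

/-- the union of these sets over all admissible data of height at most `η log X` -/
def AllPoints (K : Type) [Field K] [NumberField K] (a b q r p : ℕ) (η X : ℝ) :
    Set (Projectivization K (Fin 2 → K) × Projectivization K (Fin 2 → K)) :=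
  {P | ∃ (S : Finset (HeightOneSpectrum (𝓞 K))) (A B : Fin 2 → K[X])
    (F : MvPolynomial (Fin 2 ⊕ Fin 2) K),
    Admissible a b q r p (η * Real.log X) S A B F ∧ P ∈ Points a b q r (S : Set _) A B F X}

/-- the points `P = (α, β)` for which there are admissible data of height at most `η log X` such
that `P` is on the curve, off `D`, with `N^(1)_S(D, P) ≤ log X`, and violates
`N^(1)_S(D, P) ≥ κ₁ h_K(α) + κ₂ h_K(β) - C₀` -/
def Exceptions (K : Type) [Field K] [NumberField K] (a b q r p : ℕ) (η κ₁ κ₂ C₀ X : ℝ) :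
    Set (Projectivization K (Fin 2 → K) × Projectivization K (Fin 2 → K)) :=
  {P | ∃ (S : Finset (HeightOneSpectrum (𝓞 K))) (A B : Fin 2 → K[X])
    (F : MvPolynomial (Fin 2 ⊕ Fin 2) K),
    Admissible a b q r p (η * Real.log X) S A B F ∧
    ∃ (x : Option K) (hs : coordinates a A x ≠ 0) (ht : coordinates b B x ≠ 0),
      P = (Projectivization.mk K (coordinates a A x) hs,
        Projectivization.mk K (coordinates b B x) ht) ∧
      MvPolynomial.eval (Sum.elim (coordinates a A x) (coordinates b B x)) F ≠ 0 ∧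
      counting (S : Set _) F q r (coordinates a A x) (coordinates b B x) ≤ Real.log X ∧
      counting (S : Set _) F q r (coordinates a A x) (coordinates b B x) <
        κ₁ * Height.logHeight (coordinates a A x) +
          κ₂ * Height.logHeight (coordinates b B x) - C₀}

open Pool.Agent.Y557.U

theorem coordinates_fun :
    (coordinates : ℕ → (Fin 2 → K[X]) → Option K → Fin 2 → K) = co := by
  funext m P t
  cases t <;> rfl

/-- the index sets of the coefficients -/
def eqv (F : MvPolynomial (Fin 2 ⊕ Fin 2) K) :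
    F.support ≃ (Σ j : Fin 1, ((fun _ : Fin 1 => F) j).support) where
  toFun d := ⟨0, d⟩
  invFun s := s.2
  left_inv _ := rfl
  right_inv s := by
    obtain ⟨j, d⟩ := s
    obtain rfl : j = 0 := Subsingleton.elim _ _
    rfl

theorem sup_eq (F : MvPolynomial (Fin 2 ⊕ Fin 2) K) (φ : K → ℝ) :
    (⨆ s : (Σ j : Fin 1, ((fun _ : Fin 1 => F) j).support), φ (F.coeff s.2)) =
      ⨆ d : F.support, φ (F.coeff d) :=
  ((eqv F).iSup_comp (g := fun s => φ (F.coeff s.2))).symm

theorem sup_one (c : ℝ) : (⨆ _ : Fin 1, c) = c := ciSup_const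

theorem localHeight_eq (F : MvPolynomial (Fin 2 ⊕ Fin 2) K) (q r : ℕ)
    (v : HeightOneSpectrum (𝓞 K)) (s t : Fin 2 → K) :
    lamS (fun _ : Fin 1 => F) q r v s t = localHeight F q r v s t := by
  unfold localHeight lamS
  rw [sup_eq F (fun c => FinitePlace.mk v c),
    sup_one (FinitePlace.mk v (MvPolynomial.eval (Sum.elim s t) F))]

theorem counting_eq (S : Set (HeightOneSpectrum (𝓞 K))) (F : MvPolynomial (Fin 2 ⊕ Fin 2) K)
    (q r : ℕ) (s t : Fin 2 → K) : counting S F q r s t =
      cL S (fun v => lamS (fun _ : Fin 1 => F) q r v s t) := by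
  unfold counting cL
  simp only [localHeight_eq F]

theorem height_eq (F : MvPolynomial (Fin 2 ⊕ Fin 2) K) :
    Height.logHeight (cFs (fun _ : Fin 1 => F)) =
      Height.logHeight (fun d : F.support => F.coeff d) :=
  (Height.logHeight_comp_equiv (eqv F) (cFs (fun _ : Fin 1 => F))).symm

theorem adm_iff {a b q r p : ℕ} {H : ℝ} {S : Finset (HeightOneSpectrum (𝓞 K))}
    {A B : Fin 2 → K[X]} {F : MvPolynomial (Fin 2 ⊕ Fin 2) K}
    (h : Admissible a b q r p H S A B F) : Adm3 a b q r p H S A B (fun _ : Fin 1 => F) := by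
  classical
  obtain ⟨A', -, hA'⟩ := (hyps K).hCOMP2 2 2 a b q r
  refine ⟨⟨h.first.degree_le, h.first.degree_eq, h.first.coprime⟩,
    ⟨h.second.degree_le, h.second.degree_eq, h.second.coprime⟩, fun _ => h.bihomogeneous,
    ⟨restriction A B F, h.ne_zero, h.splits, fun _ => dvd_refl _, ⟨fun _ => 1, ?_⟩, ?_⟩,
    fun _ => (hA' A B F h.first.degree_le h.second.degree_le h.bihomogeneous).1,
    h.primes, h.height_first, h.height_second, by rw [height_eq]; exact h.height_form⟩
  · rw [Finset.sum_const, Finset.card_univ, Fintype.card_fin, one_smul, one_mul]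
    rfl
  · rw [← h.points]
    unfold zeros
    have e1 : (∀ _ : Fin 1, (res2 A B F).natDegree < a * q + b * r) ↔
        (restriction A B F).natDegree < a * q + b * r :=
      ⟨fun h' => h' 0, fun h' _ => h'⟩
    congr 1
    by_cases h6 : (restriction A B F).natDegree < a * q + b * r
    · rw [if_pos (e1.2 h6), if_pos h6]
    · rw [if_neg fun h7 => h6 (e1.1 h7), if_neg h6]

theorem points_eq (a b q r : ℕ) (S : Set (HeightOneSpectrum (𝓞 K))) (A B : Fin 2 → K[X])
    (F : MvPolynomial (Fin 2 ⊕ Fin 2) K) (X : ℝ) :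
    Points a b q r S A B F X = PP3 a b q r S A B (fun _ : Fin 1 => F) (Real.log X) := by
  have e : ∀ x : Option K,
      (∃ _ : Fin 1, MvPolynomial.eval (Sum.elim (co a A x) (co b B x)) F ≠ 0) ↔
      MvPolynomial.eval (Sum.elim (co a A x) (co b B x)) F ≠ 0 :=
    fun x => ⟨fun ⟨_, h'⟩ => h', fun h' => ⟨0, h'⟩⟩
  unfold Points PP3
  simp only [counting_eq, e]
  rw [coordinates_fun]

theorem allPoints_sub (a b q r p : ℕ) (η X : ℝ) :
    AllPoints K a b q r p η X ⊆ AP3 K 2 2 1 a b q r p η (Real.log X) := by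
  rintro P ⟨S, A, B, F, hA, h⟩
  rw [points_eq] at h
  exact ⟨S, A, B, fun _ => F, adm_iff hA, h⟩

theorem exceptions_sub (a b q r p : ℕ) (η κ₁ κ₂ C₀ X : ℝ) :
    Exceptions K a b q r p η κ₁ κ₂ C₀ X ⊆
      EX3 K 2 2 1 a b q r p η κ₁ κ₂ C₀ (Real.log X) := by
  unfold Exceptions EX3
  simp only [counting_eq]
  rw [coordinates_fun]
  rintro P ⟨S, A, B, F, hA, x, hs, ht, rfl, h1, h2, h3⟩
  exact ⟨S, A, B, fun _ => F, adm_iff hA, x, hs, ht, rfl, ⟨0, h1⟩, h2, h3⟩

/-- **All rational curves of small height of `ℙ¹ × ℙ¹` at once.** Let `K` be a number field,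
`a + b ≥ 1` and `p ≥ 3`.
(1) For every `δ > 0` there is `η > 0` such that on all admissible curves of height at most
`η log X` together there are at most `C X ^ (2 / p + δ)` points `P` off `D` with
`N^(1)_S(D, P) ≤ log X`, and on each single one of them at least `X ^ (2 / p - δ)` (`X` large).
(2) If `κ₁ a + κ₂ b < p`, there are `η, ν > 0` such that for every real `C₀` at most
`C X ^ (2 / p - ν)` points of all these curves violate
`N^(1)_S(D, (α, β)) ≥ κ₁ h_K(α) + κ₂ h_K(β) - C₀`; for large `X` this is at most `X ^ (-ν)` times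
the number of the points of each single curve.
(3) For admissible data of height at most `H`, all points `(α, β)` of the curve satisfy
`|b h_K(α) - a h_K(β)| ≤ C (H + 1)` and, off `D`,
`(a + b) N^(1)_S(D, (α, β)) ≤ p (h_K(α) + h_K(β)) + C (H + 1)`.
Points of the curves always means points with a parameter in the projective line over `K`. -/
theorem result (K : Type) [Field K] [NumberField K] (a b q r p : ℕ) (hab : 1 ≤ a + b)
    (hp : 3 ≤ p) :
    (∀ δ : ℝ, 0 < δ → ∃ η : ℝ, 0 < η ∧
      (∃ C : ℝ, ∀ X : ℝ, 1 ≤ X → (AllPoints K a b q r p η X).Finite ∧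
        ((AllPoints K a b q r p η X).ncard : ℝ) ≤ C * X ^ (2 / (p : ℝ) + δ)) ∧
      ∃ X₀ : ℝ, ∀ X : ℝ, X₀ ≤ X → ∀ (S : Finset (HeightOneSpectrum (𝓞 K)))
        (A B : Fin 2 → K[X]) (F : MvPolynomial (Fin 2 ⊕ Fin 2) K),
        Admissible a b q r p (η * Real.log X) S A B F →
        X ^ (2 / (p : ℝ) - δ) ≤ ((Points a b q r (S : Set _) A B F X).ncard : ℝ)) ∧
    (∀ κ₁ κ₂ : ℝ, κ₁ * a + κ₂ * b < p → ∃ η ν : ℝ, 0 < η ∧ 0 < ν ∧ ∀ C₀ : ℝ,
      (∃ C : ℝ, ∀ X : ℝ, 1 ≤ X → (Exceptions K a b q r p η κ₁ κ₂ C₀ X).Finite ∧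
        ((Exceptions K a b q r p η κ₁ κ₂ C₀ X).ncard : ℝ) ≤ C * X ^ (2 / (p : ℝ) - ν)) ∧
      ∃ X₀ : ℝ, ∀ X : ℝ, X₀ ≤ X → ∀ (S : Finset (HeightOneSpectrum (𝓞 K)))
        (A B : Fin 2 → K[X]) (F : MvPolynomial (Fin 2 ⊕ Fin 2) K),
        Admissible a b q r p (η * Real.log X) S A B F →
        ((Exceptions K a b q r p η κ₁ κ₂ C₀ X).ncard : ℝ) ≤
          X ^ (-ν) * ((Points a b q r (S : Set _) A B F X).ncard : ℝ)) ∧
    ∃ C : ℝ, ∀ H : ℝ, 0 ≤ H → ∀ (S : Finset (HeightOneSpectrum (𝓞 K))) (A B : Fin 2 → K[X])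
      (F : MvPolynomial (Fin 2 ⊕ Fin 2) K), Admissible a b q r p H S A B F → ∀ x : Option K,
      coordinates a A x ≠ 0 → coordinates b B x ≠ 0 →
      |b * Height.logHeight (coordinates a A x) - a * Height.logHeight (coordinates b B x)| ≤
        C * (H + 1) ∧
      (MvPolynomial.eval (Sum.elim (coordinates a A x) (coordinates b B x)) F ≠ 0 →
        (a + b) * counting (S : Set _) F q r (coordinates a A x) (coordinates b B x) ≤
          p * (Height.logHeight (coordinates a A x) + Height.logHeight (coordinates b B x)) +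
            C * (H + 1)) := by
  obtain ⟨h1, h2⟩ := gen_main0 (hyps K) 2 2 1 a b q r p hab hp
  refine ⟨fun δ hδ => ?_, fun κ₁ κ₂ hκ => ?_, ?_⟩
  · obtain ⟨η, hη, ⟨C, hC⟩, X₀, hX₀⟩ := h1 δ hδ
    refine ⟨η, hη, ⟨C, fun X hX => ?_⟩, X₀, fun X hX S A B F hA => ?_⟩
    · obtain ⟨h3, h4⟩ := hC X hX
      refine ⟨h3.subset (allPoints_sub _ _ _ _ _ _ _), le_trans ?_ h4⟩
      exact_mod_cast Set.ncard_le_ncard (allPoints_sub _ _ _ _ _ _ _) h3
    · rw [points_eq]
      exact hX₀ X hX S A B (fun _ => F) (adm_iff hA)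
  · obtain ⟨η, ν, hη, hν, h3⟩ := h2 κ₁ κ₂ hκ
    refine ⟨η, ν, hη, hν, fun C₀ => ?_⟩
    obtain ⟨⟨C, hC⟩, X₀, hX₀⟩ := h3 C₀
    refine ⟨⟨C, fun X hX => ?_⟩, max X₀ 1, fun X hX S A B F hA => ?_⟩
    · obtain ⟨h4, h5⟩ := hC X hX
      refine ⟨h4.subset (exceptions_sub _ _ _ _ _ _ _ _ _ _), le_trans ?_ h5⟩
      exact_mod_cast Set.ncard_le_ncard (exceptions_sub _ _ _ _ _ _ _ _ _ _) h4
    · obtain ⟨h4, -⟩ := hC X ((le_max_right _ _).trans hX)
      have h5 := hX₀ X ((le_max_left _ _).trans hX) S A B (fun _ => F) (adm_iff hA)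
      rw [← points_eq] at h5
      refine le_trans ?_ h5
      exact_mod_cast Set.ncard_le_ncard (exceptions_sub _ _ _ _ _ _ _ _ _ _) h4
  · obtain ⟨C, -, hC⟩ := gen_rev (hyps K) 2 2 1 a b q r p
    refine ⟨C, fun H hH S A B F hA x hs ht => ?_⟩
    simp only [counting_eq]
    rw [coordinates_fun] at hs ht ⊢
    obtain ⟨h3, h4⟩ := hC H hH S A B (fun _ => F) (adm_iff hA) x hs ht
    exact ⟨h3, fun h5 => h4 ⟨0, h5⟩⟩

end Pool.Agent.Results.MP_542436_nt.AllRationalCurvesAtOnce
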