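import Pool.Agent.Y911.PP.Main

/-!
# Vojta's conjecture with truncated counting function for almost all points of `ℙ¹ × ℙ¹`

`K` is a number field, `S` a finite set of primes, `a 0, ..., a (q - 1)` and `b 0, ..., b (r - 1)`
are different `K`-points of the projective line, `q, r ≥ 3`. The points `(P, Q)` of `ℙ¹ × ℙ¹` over
`K`, of all heights, are ordered by the truncated counting functions `N^(1)(a, P) ≤ log X` and
`N^(1)(b, Q) ≤ log Y`. All but a proportion `min (X, Y) ^ (-ν)` of them satisfy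
`N^(1)(D, (P, Q)) ≥ (q - ε) h(P) + (r - ε) h(Q)` for every divisor `D` which contains the fibres over
the points `a i` of the first and over the points `b j` of the second projection. If the bidegree of
`D` is at most `(q + 2, r + 2)`, this is the inequality of the conjecture.
-/

set_option autoImplicit false

namespace Pool.Agent.Results.MP_542436_nt.GridAlmostAllPoints

open NumberField IsDedekindDomain

/-- the `K`-rational points of the projective line -/
abbrev P1 (K : Type) [Field K] : Type := Projectivization K (Fin 2 → K)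

variable {K : Type} [Field K] [NumberField K]

/-- the height of a point, relative to `K` -/
noncomputable def height (P : P1 K) : ℝ := Height.logHeight P.rep

/-- the larger absolute value of the two coordinates -/
noncomputable def size (v : HeightOneSpectrum (𝓞 K)) (x : Fin 2 → K) : ℝ :=
  max (FinitePlace.mk v (x 0)) (FinitePlace.mk v (x 1))

/-- the local height of `P` relative to the point `A`, at the prime `v` -/
noncomputable def lam (v : HeightOneSpectrum (𝓞 K)) (A P : P1 K) : ℝ :=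
  -Real.log (FinitePlace.mk v (A.rep 0 * P.rep 1 - A.rep 1 * P.rep 0) /
    (size v A.rep * size v P.rep))

omit [NumberField K] in
/-- the form of bidegree `(e, f)` with the coefficients `c` -/
def biform {e f : ℕ} (c : Fin (e + 1) → Fin (f + 1) → K) (x y : Fin 2 → K) : K :=
  ∑ i : Fin (e + 1), ∑ j : Fin (f + 1),
    c i j * (x 0 ^ (i : ℕ) * x 1 ^ (e - i : ℕ)) * (y 0 ^ (j : ℕ) * y 1 ^ (f - j : ℕ))

/-- the local height of `(P, Q)` relative to the curve `c = 0` of bidegree `(e, f)`, at `v` -/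
noncomputable def lamC (v : HeightOneSpectrum (𝓞 K)) {e f : ℕ}
    (c : Fin (e + 1) → Fin (f + 1) → K) (P Q : P1 K) : ℝ :=
  -Real.log (FinitePlace.mk v (biform c P.rep Q.rep) /
    ((⨆ i, ⨆ j, FinitePlace.mk v (c i j)) * size v P.rep ^ e * size v Q.rep ^ f))

/-- the truncated counting function `N^(1)` of the sum of the points `a i`, without the primes
in `S` -/
noncomputable def count (S : Set (HeightOneSpectrum (𝓞 K))) {q : ℕ} (a : Fin q → P1 K)
    (P : P1 K) : ℝ :=
  ∑ᶠ (v : HeightOneSpectrum (𝓞 K)) (_ : v ∉ S),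
    min (Real.log (Ideal.absNorm v.asIdeal : ℝ)) (∑ i, lam v (a i) P)

/-- the truncated counting function `N^(1)_D`, without the primes in `S`, of the divisor `D` of
bidegree `(q + e, r + f)` on `ℙ¹ × ℙ¹` which is the sum of the fibres over the `a i` and over the
`b j` and of the curve `c = 0` -/
noncomputable def countD (S : Set (HeightOneSpectrum (𝓞 K))) {q r e f : ℕ} (a : Fin q → P1 K)
    (b : Fin r → P1 K) (c : Fin (e + 1) → Fin (f + 1) → K) (P Q : P1 K) : ℝ :=
  ∑ᶠ (v : HeightOneSpectrum (𝓞 K)) (_ : v ∉ S),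
    min (Real.log (Ideal.absNorm v.asIdeal : ℝ))
      (∑ i, lam v (a i) P + ∑ j, lam v (b j) Q + lamC v c P Q)

/-- the points `(P, Q)`, of all heights, off the fibres, with `N^(1)(a, P) ≤ log X` and
`N^(1)(b, Q) ≤ log Y` -/
def Points (S : Set (HeightOneSpectrum (𝓞 K))) {q r : ℕ} (a : Fin q → P1 K) (b : Fin r → P1 K)
    (X Y : ℝ) : Set (P1 K × P1 K) :=
  {z | (∀ i, z.1 ≠ a i) ∧ (∀ j, z.2 ≠ b j) ∧ count S a z.1 ≤ Real.log X ∧
    count S b z.2 ≤ Real.log Y}

/-- those among them with `N^(1)_D(P, Q) < (q - ε) h(P) + (r - ε) h(Q)` for some divisor `D`, of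
any bidegree `(q + e, r + f)`, which contains the fibres but not the point -/
def Exceptions (S : Set (HeightOneSpectrum (𝓞 K))) {q r : ℕ} (a : Fin q → P1 K)
    (b : Fin r → P1 K) (ε X Y : ℝ) : Set (P1 K × P1 K) :=
  {z | z ∈ Points S a b X Y ∧ ∃ (e f : ℕ) (c : Fin (e + 1) → Fin (f + 1) → K),
    biform c z.1.rep z.2.rep ≠ 0 ∧
    countD S a b c z.1 z.2 < ((q : ℝ) - ε) * height z.1 + ((r : ℝ) - ε) * height z.2}

section Link

open Finset
open Pool.Agent.H691R3 Pool.Agent.TH876.Loc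
open Pool.Agent.TH876.KR (form localHeight localHeight_nonneg localHeight_eq localHeight_pos_iff
  m2 form_le good_finite Good m2_of_good log_nn log_Nv_pos')
open Pool.Agent.Y557.NF (m2_pos)
open Pool.Agent.Y730.QP (log_Nv_le_localHeight)
open Pool.Agent.Y911.RR (Meet meet_iff meet_comm form_rep_ne)
open Pool.Agent.Y911.PP

theorem lam_eq (v : HeightOneSpectrum (𝓞 K)) (A P : P1 K) :
    lam v A P = localHeight v A.rep P.rep := by
  rw [localHeight_eq, ← inv_div, Real.log_inv]
  rfl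

theorem lam_nonneg (v : HeightOneSpectrum (𝓞 K)) {A P : P1 K} (h : P ≠ A) : 0 ≤ lam v A P := by
  rw [lam_eq]
  exact localHeight_nonneg v (form_rep_ne h.symm)

theorem lam_pos_iff (v : HeightOneSpectrum (𝓞 K)) {A P : P1 K} (h : P ≠ A) :
    0 < lam v A P ↔ Meet v P A := by
  rw [lam_eq, localHeight_pos_iff v (form_rep_ne h.symm), ← meet_iff, meet_comm]

theorem le_lam (v : HeightOneSpectrum (𝓞 K)) {A P : P1 K} (h : P ≠ A) (hm : Meet v P A) :
    Real.log (Ideal.absNorm v.asIdeal : ℝ) ≤ lam v A P := by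
  have h1 := (lam_pos_iff v h).2 hm
  rw [lam_eq] at h1 ⊢
  exact log_Nv_le_localHeight v (form_rep_ne h.symm) h1

variable {q r : ℕ} {S : Set (HeightOneSpectrum (𝓞 K))} {a : Fin q → P1 K} {b : Fin r → P1 K}

theorem sum_lam_nonneg {P : P1 K} (hP : ∀ i, P ≠ a i) (v : HeightOneSpectrum (𝓞 K)) :
    0 ≤ ∑ i, lam v (a i) P :=
  Finset.sum_nonneg fun i _ => lam_nonneg v (hP i)

theorem le_sum_lam {P : P1 K} (hP : ∀ i, P ≠ a i) {v : HeightOneSpectrum (𝓞 K)}
    (hv : v ∈ sps S a P) : Real.log (Ideal.absNorm v.asIdeal : ℝ) ≤ ∑ i, lam v (a i) P := by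
  obtain ⟨_, l, hl⟩ := (mem_sps hP).1 hv
  exact (le_lam v (hP l) hl).trans
    (Finset.single_le_sum (f := fun i => lam v (a i) P) (fun i _ => lam_nonneg v (hP i))
      (Finset.mem_univ l))

theorem sum_lam_zero {P : P1 K} (hP : ∀ i, P ≠ a i) {v : HeightOneSpectrum (𝓞 K)} (hS : v ∉ S)
    (hv : v ∉ sps S a P) : ∑ i, lam v (a i) P = 0 := by
  refine Finset.sum_eq_zero fun i _ => ?_
  by_contra h
  have h1 : 0 < lam v (a i) P := lt_of_le_of_ne (lam_nonneg v (hP i)) (Ne.symm h)
  exact hv ((mem_sps hP).2 ⟨hS, i, (lam_pos_iff v (hP i)).1 h1⟩)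

theorem count_eq {P : P1 K} (hP : ∀ i, P ≠ a i) : count S a P = Real.log (nn (sps S a P)) := by
  classical
  have hterm : ∀ v : HeightOneSpectrum (𝓞 K),
      (∑ᶠ (_ : v ∉ S), min (Real.log (Ideal.absNorm v.asIdeal : ℝ)) (∑ i, lam v (a i) P)) =
        if v ∈ sps S a P then Real.log (Nv v) else 0 := by
    intro v
    rw [finsum_eq_if]
    by_cases hS : v ∉ S
    · rw [if_pos hS]
      by_cases hv : v ∈ sps S a P
      · rw [if_pos hv]
        exact min_eq_left (le_sum_lam hP hv)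
      · rw [if_neg hv, sum_lam_zero hP hS hv]
        exact min_eq_right (log_Nv_pos' v).le
    · rw [if_neg hS, if_neg]
      exact fun hv => hS ((mem_sps hP).1 hv).1
  unfold count
  simp_rw [hterm]
  rw [finsum_eq_sum_of_support_subset (s := sps S a P), log_nn]
  · refine Finset.sum_congr rfl fun v hv => ?_
    rw [if_pos hv]
  · intro v hv
    by_contra h
    rw [Function.mem_support] at hv
    exact hv (if_neg h)

theorem pow_le_size (v : HeightOneSpectrum (𝓞 K)) (x : Fin 2 → K) {e : ℕ} (i : Fin (e + 1)) :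
    fv v (x 0 ^ (i : ℕ) * x 1 ^ (e - i : ℕ)) ≤ size v x ^ e := by
  have hi : (i : ℕ) + (e - i) = e := by omega
  rw [map_mul, map_pow, map_pow]
  calc fv v (x 0) ^ (i : ℕ) * fv v (x 1) ^ (e - i : ℕ) ≤
        size v x ^ (i : ℕ) * size v x ^ (e - i : ℕ) := by
        refine mul_le_mul (pow_le_pow_left₀ ((fv v).nonneg _) (le_max_left _ _) _)
          (pow_le_pow_left₀ ((fv v).nonneg _) (le_max_right _ _) _)
          (pow_nonneg ((fv v).nonneg _) _) (pow_nonneg ?_ _)
        exact ((fv v).nonneg (x 0)).trans (le_max_left _ _)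
    _ = size v x ^ e := by rw [← pow_add, hi]

theorem coef_le_sup (v : HeightOneSpectrum (𝓞 K)) {e f : ℕ} (c : Fin (e + 1) → Fin (f + 1) → K)
    (i : Fin (e + 1)) (j : Fin (f + 1)) :
    fv v (c i j) ≤ ⨆ i, ⨆ j, FinitePlace.mk v (c i j) :=
  (le_ciSup (f := fun j => FinitePlace.mk v (c i j)) (Set.finite_range _).bddAbove j).trans
    (le_ciSup (f := fun i => ⨆ j, FinitePlace.mk v (c i j)) (Set.finite_range _).bddAbove i)

theorem biform_le (v : HeightOneSpectrum (𝓞 K)) {e f : ℕ} (c : Fin (e + 1) → Fin (f + 1) → K)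
    (x y : Fin 2 → K) : fv v (biform c x y) ≤
      (⨆ i, ⨆ j, FinitePlace.mk v (c i j)) * size v x ^ e * size v y ^ f := by
  have hx : 0 ≤ size v x := ((fv v).nonneg (x 0)).trans (le_max_left _ _)
  have hy : 0 ≤ size v y := ((fv v).nonneg (y 0)).trans (le_max_left _ _)
  have hc : 0 ≤ ⨆ i, ⨆ j, FinitePlace.mk v (c i j) :=
    ((fv v).nonneg (c 0 0)).trans (coef_le_sup v c 0 0)
  have hB : 0 ≤ (⨆ i, ⨆ j, FinitePlace.mk v (c i j)) * size v x ^ e * size v y ^ f :=
    mul_nonneg (mul_nonneg hc (pow_nonneg hx _)) (pow_nonneg hy _)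
  unfold biform
  refine fv_sum_le v _ _ _ hB fun i _ => fv_sum_le v _ _ _ hB fun j _ => ?_
  rw [map_mul, map_mul]
  exact mul_le_mul (mul_le_mul (coef_le_sup v c i j) (pow_le_size v x i) ((fv v).nonneg _) hc)
    (pow_le_size v y j) ((fv v).nonneg _) (mul_nonneg hc (pow_nonneg hx _))

theorem lamC_nonneg (v : HeightOneSpectrum (𝓞 K)) {e f : ℕ} {c : Fin (e + 1) → Fin (f + 1) → K}
    {P Q : P1 K} (h : biform c P.rep Q.rep ≠ 0) : 0 ≤ lamC v c P Q := by
  have h1 : 0 < fv v (biform c P.rep Q.rep) := (fv v).pos h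
  have h2 := biform_le v c P.rep Q.rep
  unfold lamC
  rw [neg_nonneg]
  refine Real.log_nonpos (div_nonneg h1.le (h1.le.trans h2)) ?_
  exact div_le_one_of_le₀ h2 (h1.le.trans h2)

theorem lamC_finite {e f : ℕ} {c : Fin (e + 1) → Fin (f + 1) → K}
    {P Q : P1 K} (h : biform c P.rep Q.rep ≠ 0) :
    {v : HeightOneSpectrum (𝓞 K) | lamC v c P Q ≠ 0}.Finite := by
  have h1 : {v : Pr K | fv v (biform c P.rep Q.rep) ≠ 1}.Finite := fv_support_finite h
  have h2 : (⋃ i, ⋃ j, {v : Pr K | c i j ≠ 0 ∧ fv v (c i j) ≠ 1}).Finite := by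
    refine Set.finite_iUnion fun i => Set.finite_iUnion fun j => ?_
    by_cases hj : c i j = 0
    · exact Set.Finite.subset Set.finite_empty fun v hv => absurd hj hv.1
    · exact (fv_support_finite hj).subset fun v hv => hv.2
  refine (((good_finite P.rep).union (good_finite Q.rep)).union (h1.union h2)).subset ?_
  intro v hv
  by_contra hcon
  rw [Set.mem_union, Set.mem_union, Set.mem_union, not_or, not_or, not_or] at hcon
  obtain ⟨⟨k1, k2⟩, k3, k4⟩ := hcon
  have g1 : Good v P.rep := by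
    by_contra h'
    exact k1 h'
  have g2 : Good v Q.rep := by
    by_contra h'
    exact k2 h'
  have g3 : fv v (biform c P.rep Q.rep) = 1 := by
    by_contra h'
    exact k3 h'
  have g4 : ∀ i j, c i j ≠ 0 → fv v (c i j) = 1 := by
    intro i j hij
    by_contra h'
    exact k4 (Set.mem_iUnion.2 ⟨i, Set.mem_iUnion.2 ⟨j, hij, h'⟩⟩)
  have s1 : size v P.rep = 1 := m2_of_good P.rep_nonzero g1
  have s2 : size v Q.rep = 1 := m2_of_good Q.rep_nonzero g2
  have g5 : ∃ i j, c i j ≠ 0 := by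
    by_contra hall
    push Not at hall
    apply h
    unfold biform
    refine Finset.sum_eq_zero fun i _ => Finset.sum_eq_zero fun j _ => ?_
    rw [hall i j, zero_mul, zero_mul]
  have s3 : (⨆ i, ⨆ j, FinitePlace.mk v (c i j)) = 1 := by
    refine le_antisymm (ciSup_le fun i => ciSup_le fun j => ?_) ?_
    · by_cases hij : c i j = 0
      · rw [hij, map_zero]
        exact zero_le_one
      · exact (g4 i j hij).le
    · obtain ⟨i, j, hij⟩ := g5
      rw [← g4 i j hij]
      exact coef_le_sup v c i j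
  apply hv
  unfold lamC
  rw [s1, s2, s3, one_pow, one_pow, mul_one, mul_one, div_one]
  have g3' : FinitePlace.mk v (biform c P.rep Q.rep) = 1 := g3
  rw [g3', Real.log_one, neg_zero]

open Classical in
theorem le_countD {e f : ℕ} {c : Fin (e + 1) → Fin (f + 1) → K} {P Q : P1 K}
    (hP : ∀ i, P ≠ a i) (hQ : ∀ j, Q ≠ b j) (h : biform c P.rep Q.rep ≠ 0) :
    Real.log (nn (sps S a P ∪ sps S b Q)) ≤ countD S a b c P Q := by
  obtain ⟨V, hV⟩ : ∃ V : Finset (Pr K), V = (sps S a P ∪ sps S b Q) ∪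
    (lamC_finite h).toFinset := ⟨_, rfl⟩
  have hsub : sps S a P ∪ sps S b Q ⊆ V := by rw [hV]; exact Finset.subset_union_left
  have hnn : ∀ v : Pr K, 0 ≤ ∑ i, lam v (a i) P + ∑ j, lam v (b j) Q + lamC v c P Q := fun v =>
    add_nonneg (add_nonneg (sum_lam_nonneg hP v) (sum_lam_nonneg hQ v)) (lamC_nonneg v h)
  have hterm : ∀ v : HeightOneSpectrum (𝓞 K),
      (∑ᶠ (_ : v ∉ S), min (Real.log (Ideal.absNorm v.asIdeal : ℝ))
        (∑ i, lam v (a i) P + ∑ j, lam v (b j) Q + lamC v c P Q)) =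
        if v ∉ S then min (Real.log (Nv v))
          (∑ i, lam v (a i) P + ∑ j, lam v (b j) Q + lamC v c P Q) else 0 := fun v =>
    finsum_eq_if
  unfold countD
  simp_rw [hterm]
  rw [finsum_eq_sum_of_support_subset (s := V), log_nn]
  · refine (Finset.sum_le_sum fun v hv => ?_).trans
      (Finset.sum_le_sum_of_subset_of_nonneg hsub fun v _ _ => ?_)
    · rcases Finset.mem_union.1 hv with h1 | h1
      · rw [if_pos ((mem_sps hP).1 h1).1]
        refine le_min le_rfl ?_
        have k1 := le_sum_lam hP h1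
        have k2 := sum_lam_nonneg hQ v
        have k3 := lamC_nonneg v h
        have k4 : Real.log (Nv v) ≤ ∑ i, lam v (a i) P := k1
        linarith
      · rw [if_pos ((mem_sps hQ).1 h1).1]
        refine le_min le_rfl ?_
        have k1 := sum_lam_nonneg hP v
        have k2 : Real.log (Nv v) ≤ ∑ j, lam v (b j) Q := le_sum_lam hQ h1
        have k3 := lamC_nonneg v h
        linarith
    · by_cases hS : v ∉ S
      · rw [if_pos hS]
        exact le_min (log_Nv_pos' v).le (hnn v)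
      · rw [if_neg hS]
  · intro v hv
    by_contra hcon
    rw [Function.mem_support] at hv
    apply hv
    rw [Finset.mem_coe, hV, Finset.mem_union, Finset.mem_union, not_or, not_or,
      Set.Finite.mem_toFinset] at hcon
    obtain ⟨⟨k1, k2⟩, k3⟩ := hcon
    have k3' : lamC v c P Q = 0 := by
      by_contra h'
      exact k3 h'
    by_cases hS : v ∉ S
    · rw [if_pos hS, sum_lam_zero hP hS k1, sum_lam_zero hQ hS k2, k3', add_zero, add_zero]
      exact min_eq_right (log_Nv_pos' v).le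
    · rw [if_neg hS]

theorem points_eq {X Y : ℝ} (hX : 0 < X) (hY : 0 < Y) :
    Points S a b X Y = Pts2 S a b X Y := by
  ext z
  have key : ∀ {n : ℕ} (A : Fin n → P1 K) (P : P1 K) (Z : ℝ), 0 < Z → (∀ i, P ≠ A i) →
      (count S A P ≤ Real.log Z ↔ nn (sps S A P) ≤ Z) := by
    intro n A P Z hZ hP
    rw [count_eq hP, Real.log_le_log_iff (nn_pos _) hZ]
  constructor
  · rintro ⟨h1, h2, h3, h4⟩
    exact ⟨⟨h1, (key a z.1 X hX h1).1 h3⟩, h2, (key b z.2 Y hY h2).1 h4⟩
  · rintro ⟨⟨h1, h3⟩, h2, h4⟩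
    exact ⟨h1, h2, (key a z.1 X hX h1).2 h3, (key b z.2 Y hY h2).2 h4⟩

theorem exceptions_sub {ε X Y : ℝ} (hX : 0 < X) (hY : 0 < Y) :
    Exceptions S a b ε X Y ⊆ Exc2 S a b ε X Y := by
  rintro z ⟨hz, e, f, c, hc, hlt⟩
  refine ⟨by rw [← points_eq hX hY]; exact hz, ?_⟩
  exact lt_of_le_of_lt (le_countD hz.1 hz.2.1 hc) hlt

end Link

open Pool.Agent.Y911.PP in
/-- **Almost all points of `ℙ¹ × ℙ¹`, of all heights.** Let `K` be a number field, `S` a finite
set of primes, `q, r ≥ 3`, and let `a i`, `i < q`, and `b j`, `j < r`, be different points of the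
projective line.
(1) The number of all points `(P, Q)` off the fibres, of whatever height, with
`N^(1)(a, P) ≤ log X` and `N^(1)(b, Q) ≤ log Y` is `X ^ (2 / q + o(1)) Y ^ (2 / r + o(1))`.
(2) For every `ε > 0` there is `ν > 0` such that for all large `X` and `Y` all but a proportion
`min (X, Y) ^ (-ν)` of them satisfy `N^(1)_D(P, Q) ≥ (q - ε) h(P) + (r - ε) h(Q)` for EVERY divisor
`D`, of any bidegree, which contains the fibres over the `a i` and the `b j` but not `(P, Q)`. -/
theorem result (K : Type) [Field K] [NumberField K] (S : Set (HeightOneSpectrum (𝓞 K)))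
    (hS : S.Finite) (q r : ℕ) (hq : 3 ≤ q) (hr : 3 ≤ r) (a : Fin q → P1 K) (b : Fin r → P1 K)
    (ha : Function.Injective a) (hb : Function.Injective b) :
    (∀ δ : ℝ, 0 < δ →
      (∃ C : ℝ, ∀ X Y : ℝ, 1 ≤ X → 1 ≤ Y → (Points S a b X Y).Finite ∧
        ((Points S a b X Y).ncard : ℝ) ≤ C * (X ^ (2 / (q : ℝ) + δ) * Y ^ (2 / (r : ℝ) + δ))) ∧
      ∃ X₀ : ℝ, ∀ X Y : ℝ, X₀ ≤ X → X₀ ≤ Y →
        X ^ (2 / (q : ℝ) - δ) * Y ^ (2 / (r : ℝ) - δ) ≤ ((Points S a b X Y).ncard : ℝ)) ∧
    (∀ ε : ℝ, 0 < ε → ∃ ν X₀ : ℝ, 0 < ν ∧ ∀ X Y : ℝ, X₀ ≤ X → X₀ ≤ Y →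
      ((Exceptions S a b ε X Y).ncard : ℝ) ≤
        (min X Y) ^ (-ν) * ((Points S a b X Y).ncard : ℝ)) := by
  refine ⟨fun δ hδ => ?_, fun ε hε => ?_⟩
  · obtain ⟨⟨C, h1⟩, X0, h2⟩ := pts2_count S hS hq hr ha hb δ hδ
    refine ⟨⟨C, fun X Y hX hY => ?_⟩, max X0 1, fun X Y hX hY => ?_⟩
    · rw [points_eq (by linarith) (by linarith)]
      exact h1 X Y hX hY
    · have hX1 : 1 ≤ X := (le_max_right _ _).trans hX
      have hY1 : 1 ≤ Y := (le_max_right _ _).trans hY
      rw [points_eq (by linarith) (by linarith)]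
      exact h2 X Y ((le_max_left _ _).trans hX) ((le_max_left _ _).trans hY)
  · obtain ⟨ν, X0, hν, hX0, h⟩ := main S hS hq hr ha hb ε hε
    refine ⟨ν, X0, hν, fun X Y hX hY => ?_⟩
    have hX1 : 1 ≤ X := hX0.trans hX
    have hY1 : 1 ≤ Y := hX0.trans hY
    have hX' : 0 < X := by linarith
    have hY' : 0 < Y := by linarith
    rw [points_eq hX' hY']
    refine le_trans ?_ (h X Y hX hY)
    exact_mod_cast Set.ncard_le_ncard (exceptions_sub hX' hY')
      ((pts2_finite S hS hq hr ha hb hX1 hY1).subset fun z hz => hz.1)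

end Pool.Agent.Results.MP_542436_nt.GridAlmostAllPoints
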