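import Pool.Agent.Y731.RD.Bi2

/-!
# Vojta's inequality with truncated counting function for random divisors on `ℙ¹ × ℙ¹`

Let `D : F_1 ⋯ F_m = 0` be a divisor on `ℙ¹ × ℙ¹` over `ℚ`, where the `F_j` are bihomogeneous forms of
given bidegrees `(a_j, b_j)`. For all but a proportion `O(A ^ (-η / 2))` of the tuples of forms with
integer coefficients at most `A`, *every* rational point `(s, t)` off `D` with `|s| ≤ A` and
`|t| ≤ A |s| ^ a_j` for all `j` satisfies
`N¹_S(D, (s, t)) ≥ (∑ a_j - 2 - ε) log |s| + (∑ b_j - 2 - ε) log |t| + (m - η) log A`,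
which is Vojta's inequality for `K + D` with the explicit gain `(m - η) log A` instead of `O(1)`; the
same with the two factors exchanged. In particular this holds for every point both coordinates of
which have height at most `A`. For the points with `|s| ≤ A` and larger `t` the inequality holds with
`b_j log |t|` replaced by `b_j log (A |s| ^ a_j)`.
-/

set_option autoImplicit false

namespace Pool.Agent.Results.MP_542436_nt.RandomDivisors

/-- The height (largest absolute value of a coordinate) of an integer vector. -/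
def height (x : Fin 2 → ℤ) : ℕ := Finset.univ.sup fun i => (x i).natAbs

/-- The coordinates are coprime. -/
def Coprime (x : Fin 2 → ℤ) : Prop := IsCoprime (x 0) (x 1)

/-- The tuples of bihomogeneous forms of bidegrees `(a j, b j)` with integer coefficients of absolute
value at most `A`. -/
def Forms {m : ℕ} (a b : Fin m → ℕ) (A : ℕ) :
    Set (∀ j : Fin m, Fin (a j + 1) → Fin (b j + 1) → ℤ) :=
  {F | ∀ j i l, |F j i l| ≤ (A : ℤ)}

/-- The value `∑ F_{i l} s₀ ^ (a - i) s₁ ^ i t₀ ^ (b - l) t₁ ^ l` at `(s, t)` of the form of bidegree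
`(a, b)` with coefficients `F_{i l}`. -/
def value {a b : ℕ} (F : Fin (a + 1) → Fin (b + 1) → ℤ) (s t : Fin 2 → ℤ) : ℤ :=
  ∑ i, ∑ l, F i l * (s 0 ^ (a - (i : ℕ)) * s 1 ^ (i : ℕ)) * (t 0 ^ (b - (l : ℕ)) * t 1 ^ (l : ℕ))

/-- The truncated counting function `N¹_S(D, (s, t))` of the divisor `D : ∏ F_j = 0` at the point with
coprime homogeneous coordinates `s` and `t`: the sum of `log p` over the primes `p` outside `S` which
divide `∏ F_j(s, t)`. -/
noncomputable def truncatedCount {m : ℕ} {a b : Fin m → ℕ} (S : Finset ℕ)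
    (F : ∀ j : Fin m, Fin (a j + 1) → Fin (b j + 1) → ℤ) (s t : Fin 2 → ℤ) : ℝ :=
  ∑ p ∈ (∏ j, value (F j) s t).natAbs.primeFactors \ S, Real.log p

/-- The bound for points with `|s| ≤ A`:
`∑_j (log A + a_j log |s| + b_j log min (|t|, A |s| ^ a_j)) - (2 + ε) (log |s| + log |t|) - η log A`. -/
noncomputable def bound {m : ℕ} (a b : Fin m → ℕ) (ε η : ℝ) (A : ℕ) (s t : Fin 2 → ℤ) : ℝ :=
  ∑ j, (Real.log A + a j * Real.log (height s) +
      b j * Real.log ((min (height t) (A * height s ^ a j) : ℕ) : ℝ)) -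
    (2 + ε) * (Real.log (height s) + Real.log (height t)) - η * Real.log A

/-- There is a point `(s, t)` off `D : F = 0` at which the truncated counting function is smaller than
the bound, with `|s| ≤ A`, or the same with the two factors exchanged. -/
def HasBadPoint {m : ℕ} {a b : Fin m → ℕ} (S : Finset ℕ) (ε η : ℝ) (A : ℕ)
    (F : ∀ j : Fin m, Fin (a j + 1) → Fin (b j + 1) → ℤ) : Prop :=
  ∃ s t : Fin 2 → ℤ, Coprime s ∧ Coprime t ∧ (∀ j, value (F j) s t ≠ 0) ∧
    ((height s ≤ A ∧ truncatedCount S F s t < bound a b ε η A s t) ∨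
      (height t ≤ A ∧ truncatedCount S F s t < bound b a ε η A t s))

theorem exists_bezout {x : Fin 2 → ℤ} (hx : Coprime x) : ∃ v : Fin 2 → ℤ, ∑ i, v i * x i = 1 := by
  obtain ⟨u, v, h⟩ := hx
  exact ⟨![u, v], by rw [Fin.sum_univ_two]; simpa using h⟩

theorem log_Pf {m : ℕ} (a b : Fin m → ℕ) {A : ℕ} (hA : 1 ≤ A) {s t : Fin 2 → ℤ}
    (hs : 0 < height s) (ht : 0 < height t) : Real.log (Y731.RD.Pf a b A s t) =
      ∑ j, (Real.log A + a j * Real.log (height s) +
        b j * Real.log ((min (height t) (A * height s ^ a j) : ℕ) : ℝ)) := by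
  have hA0 : (A : ℝ) ≠ 0 := by
    have : A ≠ 0 := by omega
    exact_mod_cast this
  have hs0 : (height s : ℝ) ≠ 0 := by exact_mod_cast hs.ne'
  have hm : ∀ j, ((min (height t) (A * height s ^ a j) : ℕ) : ℝ) ≠ 0 := fun j => by
    have : 0 < min (height t) (A * height s ^ a j) :=
      lt_min ht (Nat.mul_pos (by omega) (pow_pos hs _))
    exact_mod_cast this.ne'
  unfold Y731.RD.Pf
  rw [Real.log_prod]
  · refine Finset.sum_congr rfl fun j _ => ?_
    show Real.log ((A : ℝ) * (height s : ℝ) ^ a j *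
      ((min (height t) (A * height s ^ a j) : ℕ) : ℝ) ^ b j) = _
    rw [Real.log_mul (mul_ne_zero hA0 (pow_ne_zero _ hs0)) (pow_ne_zero _ (hm j)),
      Real.log_mul hA0 (pow_ne_zero _ hs0), Real.log_pow, Real.log_pow]
  · intro j _
    exact mul_ne_zero (mul_ne_zero hA0 (pow_ne_zero _ hs0)) (pow_ne_zero _ (hm j))

theorem height_pos {x : Fin 2 → ℤ} (hx : Coprime x) : 0 < height x := by
  obtain ⟨v, hv⟩ := exists_bezout hx
  exact Y731.RD.nrm_pos hv

/-- the alternative with `|t| ≤ A` -/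
theorem half {m : ℕ} (a b : Fin m → ℕ) (S : Finset ℕ) (ε η : ℝ) (hε : 0 < ε) (hη : 0 < η) :
    ∃ C : ℝ, ∀ A : ℕ, 1 ≤ A →
      ({F ∈ Forms a b A | ∃ s t : Fin 2 → ℤ, Coprime s ∧ Coprime t ∧ (∀ j, value (F j) s t ≠ 0) ∧
        height t ≤ A ∧ truncatedCount S F s t < bound b a ε η A t s}.ncard : ℝ) ≤
        C * (A : ℝ) ^ (-(η / 2)) * ((Forms a b A).ncard : ℝ) := by
  classical
  obtain ⟨C, hC, h⟩ := Y731.RD.main_bi b a S hε hη
  refine ⟨C, fun A hA => ?_⟩
  have hF : Forms a b A = (Y731.RD.Bt b a A : Set _) := by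
    ext F
    rw [Finset.mem_coe]
    unfold Y731.RD.Bt Y731.RD.Bx2 Forms
    simp only [Fintype.mem_piFinset, Y731.RD.mem_Bx, Set.mem_ofPred_eq]
  have hval : ∀ {a b : ℕ} (F : Fin (a + 1) → Fin (b + 1) → ℤ) (s t : Fin 2 → ℤ),
      Y731.RD.ev2 F t s = value F s t := by
    intro a b F s t
    unfold Y731.RD.ev2 Y731.RD.ev1 value
    refine Finset.sum_congr rfl fun i _ => ?_
    rw [Finset.sum_mul]
    exact Finset.sum_congr rfl fun l _ => by ring
  set Bd := {F ∈ Forms a b A | ∃ s t : Fin 2 → ℤ, Coprime s ∧ Coprime t ∧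
    (∀ j, value (F j) s t ≠ 0) ∧
        height t ≤ A ∧ truncatedCount S F s t < bound b a ε η A t s} with hBd
  have hsub : Bd ⊆ (Y731.RD.Bt b a A : Set _) := by
    rw [← hF]; exact fun F hF' => hF'.1
  have hfin : Bd.Finite := (Finset.finite_toSet _).subset hsub
  have h1 := h A hA hfin.toFinset (fun F hF' => by
    have hG : F ∈ Bd := hfin.mem_toFinset.1 hF'
    refine ⟨Finset.mem_coe.1 (hsub hG), ?_⟩
    obtain ⟨-, s, t, hs, ht, hne, hle, hlt⟩ := hG
    refine ⟨t, s, exists_bezout ht, exists_bezout hs, hle, fun j => ?_, ?_⟩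
    · rw [hval]; exact hne j
    · simp only [hval]
      rw [log_Pf b a hA (height_pos ht) (height_pos hs)]
      exact hlt)
  rw [Set.ncard_eq_toFinset_card Bd hfin, hF, Set.ncard_coe_finset]
  exact h1

/-- **Vojta's inequality with truncated counting function for random divisors on `ℙ¹ × ℙ¹`.** -/
theorem result (m : ℕ) (a b : Fin m → ℕ) (S : Finset ℕ) (ε η : ℝ) (hε : 0 < ε) (hη : 0 < η) :
    -- the bound for points with `|s| ≤ A` and `|t| ≤ A |s| ^ a_j`
    (∀ (A : ℕ) (s t : Fin 2 → ℤ), (∀ j, height t ≤ A * height s ^ a j) →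
      bound a b ε η A s t = (∑ j, (a j : ℝ) - 2 - ε) * Real.log (height s) +
        (∑ j, (b j : ℝ) - 2 - ε) * Real.log (height t) + (m - η) * Real.log A) ∧
    -- the number of divisors with a bad point
    (∃ C : ℝ, ∀ A : ℕ, 1 ≤ A →
      ({F ∈ Forms a b A | HasBadPoint S ε η A F}.ncard : ℝ) ≤
        C * (A : ℝ) ^ (-(η / 2)) * ((Forms a b A).ncard : ℝ)) := by
  classical
  refine ⟨fun A s t h => ?_, ?_⟩
  · unfold bound
    have h1 : ∀ j, min (height t) (A * height s ^ a j) = height t := fun j => min_eq_left (h j)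
    simp only [h1]
    rw [Finset.sum_add_distrib, Finset.sum_add_distrib, Finset.sum_const, Finset.card_univ,
      Fintype.card_fin, nsmul_eq_mul, ← Finset.sum_mul, ← Finset.sum_mul]
    ring
  obtain ⟨C1, h1⟩ := half a b S ε η hε hη
  obtain ⟨C2, h2⟩ := half b a S ε η hε hη
  refine ⟨C1 + C2, fun A hA => ?_⟩
  have hfin : ∀ {m : ℕ} (a b : Fin m → ℕ), (Forms a b A).Finite := by
    intro m a b
    have hF : Forms a b A = (Y731.RD.Bt b a A : Set _) := by
      ext F
      rw [Finset.mem_coe]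
      unfold Y731.RD.Bt Y731.RD.Bx2 Forms
      simp only [Fintype.mem_piFinset, Y731.RD.mem_Bx, Set.mem_ofPred_eq]
    rw [hF]; exact Finset.finite_toSet _
  set tr : (∀ j : Fin m, Fin (a j + 1) → Fin (b j + 1) → ℤ) →
    (∀ j : Fin m, Fin (b j + 1) → Fin (a j + 1) → ℤ) := fun F j l i => F j i l with htr
  have htri : Function.Injective tr := by
    intro F G h
    funext j i l
    exact congrFun (congrFun (congrFun h j) l) i
  have hval : ∀ {a b : ℕ} (F : Fin (a + 1) → Fin (b + 1) → ℤ) (s t : Fin 2 → ℤ),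
      value (fun l i => F i l) t s = value F s t := by
    intro a b F s t
    unfold value
    rw [Finset.sum_comm]
    exact Finset.sum_congr rfl fun i _ => Finset.sum_congr rfl fun l _ => by ring
  set Bd1 := {F ∈ Forms a b A | ∃ s t : Fin 2 → ℤ, Coprime s ∧ Coprime t ∧
    (∀ j, value (F j) s t ≠ 0) ∧
        height t ≤ A ∧ truncatedCount S F s t < bound b a ε η A t s} with hBd1
  set Bd2 := {F ∈ Forms b a A | ∃ s t : Fin 2 → ℤ, Coprime s ∧ Coprime t ∧
    (∀ j, value (F j) s t ≠ 0) ∧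
        height t ≤ A ∧ truncatedCount S F s t < bound a b ε η A t s} with hBd2
  have hcard : (Forms b a A).ncard = (Forms a b A).ncard := by
    have h3 : tr '' Forms a b A = Forms b a A := by
      ext G
      constructor
      · rintro ⟨F, hF, rfl⟩
        exact fun j l i => hF j i l
      · intro hG
        exact ⟨fun j i l => G j l i, fun j i l => hG j l i, rfl⟩
    rw [← h3, Set.ncard_image_of_injective _ htri]
  have hsub : {F ∈ Forms a b A | HasBadPoint S ε η A F} ⊆ Bd1 ∪ tr ⁻¹' Bd2 := by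
    rintro F ⟨hF, s, t, hs, ht, hne, ⟨hle, hlt⟩ | ⟨hle, hlt⟩⟩
    · refine Or.inr ?_
      show tr F ∈ Bd2
      have h3 : ∀ j, value (tr F j) t s = value (F j) s t := fun j => hval (F j) s t
      refine ⟨fun j l i => hF j i l, t, s, ht, hs, fun j => ?_, hle, ?_⟩
      · rw [h3]; exact hne j
      · unfold truncatedCount
        simp only [h3]
        exact hlt
    · exact Or.inl ⟨hF, s, t, hs, ht, hne, hle, hlt⟩
  have hBf : Bd2.Finite := (hfin b a).subset fun F hF => hF.1
  have hpre : (tr ⁻¹' Bd2).Finite := hBf.preimage htri.injOn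
  have h3 : (tr ⁻¹' Bd2).ncard ≤ Bd2.ncard :=
    Set.ncard_le_ncard_of_injOn tr (fun F hF => hF) htri.injOn hBf
  have h4 : {F ∈ Forms a b A | HasBadPoint S ε η A F}.ncard ≤ Bd1.ncard + Bd2.ncard :=
    (Set.ncard_le_ncard hsub (((hfin a b).subset fun F hF => hF.1).union hpre)).trans
      ((Set.ncard_union_le _ _).trans (Nat.add_le_add_left h3 _))
  have h5 := h1 A hA
  have h6 := h2 A hA
  rw [hcard] at h6
  have h7 : ({F ∈ Forms a b A | HasBadPoint S ε η A F}.ncard : ℝ) ≤ Bd1.ncard + Bd2.ncard := by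
    exact_mod_cast h4
  calc _ ≤ (Bd1.ncard : ℝ) + Bd2.ncard := h7
    _ ≤ C1 * (A : ℝ) ^ (-(η / 2)) * ((Forms a b A).ncard : ℝ) +
        C2 * (A : ℝ) ^ (-(η / 2)) * ((Forms a b A).ncard : ℝ) := add_le_add h5 h6
    _ = _ := by ring

end Pool.Agent.Results.MP_542436_nt.RandomDivisors
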